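import Pool.Agent.Y315.OP.Stm

set_option autoImplicit false

open MeasureTheory Filter Topology
open scoped ContDiff ENNReal

namespace Pool.Agent.Y486.OP

open Pool.Agent.Y315.OP

/-! ## The profile -/

/-- the smooth profile -/
noncomputable def W (w : ℝ) : ℝ := expNegInvGlue w

lemma W_nonneg (w : ℝ) : 0 ≤ W w := expNegInvGlue.nonneg w

lemma W_zero {w : ℝ} (h : w ≤ 0) : W w = 0 := expNegInvGlue.zero_of_nonpos h

lemma W_mono : Monotone W := expNegInvGlue.monotone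

lemma W_pos {w : ℝ} (h : 0 < w) : 0 < W w := expNegInvGlue.pos_of_pos h

lemma W_le_one (w : ℝ) : W w ≤ 1 := by
  unfold W expNegInvGlue
  split_ifs with h
  · exact zero_le_one
  · push Not at h
    rw [Real.exp_le_one_iff]
    simp only [neg_nonpos, inv_nonneg]
    exact h.le

lemma W_smooth : ContDiff ℝ ∞ W := expNegInvGlue.contDiff

lemma W_cont : Continuous W := W_smooth.continuous

lemma W_diff : Differentiable ℝ W := W_smooth.differentiable (by simp)

lemma dW_smooth : ContDiff ℝ ∞ (deriv W) := (contDiff_infty_iff_deriv.mp W_smooth).2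

lemma dW_cont : Continuous (deriv W) := dW_smooth.continuous

lemma dW_zero {w : ℝ} (h : w ≤ 0) : deriv W w = 0 := by
  apply IsLocalMin.deriv_eq_zero
  apply Filter.Eventually.of_forall
  intro x
  rw [W_zero h]
  exact W_nonneg x

lemma dW_bdd : ∃ C : ℝ, 0 ≤ C ∧ ∀ w ≤ (1 : ℝ), |deriv W w| ≤ C := by
  obtain ⟨C, hC⟩ := (isCompact_Icc (a := (0 : ℝ)) (b := 1)).exists_bound_of_continuousOn
    dW_cont.continuousOn
  refine ⟨max C 0, le_max_right _ _, ?_⟩
  intro w hw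
  rcases le_or_gt w 0 with h | h
  · rw [dW_zero h, abs_zero]; exact le_max_right _ _
  · exact (hC w ⟨h.le, hw⟩).trans (le_max_left _ _)

/-- primitive of the profile -/
noncomputable def Q (w : ℝ) : ℝ := ∫ v in (0 : ℝ)..w, W v

lemma Q_deriv (w : ℝ) : HasDerivAt Q (W w) w :=
  intervalIntegral.integral_hasDerivAt_right (W_cont.intervalIntegrable _ _)
    W_cont.aestronglyMeasurable.stronglyMeasurableAtFilter W_cont.continuousAt

lemma Q_zero {w : ℝ} (h : w ≤ 0) : Q w = 0 := by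
  unfold Q
  rw [intervalIntegral.integral_congr (g := fun _ => (0 : ℝ))]
  · simp
  · intro x hx
    rw [Set.uIcc_of_ge h] at hx
    exact W_zero hx.2

lemma Q_smooth : ContDiff ℝ ∞ Q := by
  rw [contDiff_infty_iff_deriv]
  refine ⟨fun w => (Q_deriv w).differentiableAt, ?_⟩
  have : deriv Q = W := funext (fun w => (Q_deriv w).deriv)
  rw [this]
  exact W_smooth

lemma Q_nonneg (w : ℝ) : 0 ≤ Q w := by
  rcases le_or_gt w 0 with h | h
  · rw [Q_zero h]
  · exact intervalIntegral.integral_nonneg h.le (fun x _ => W_nonneg x)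

lemma Q_le {w : ℝ} (hw : w ≤ 1) : Q w ≤ W w := by
  rcases le_or_gt w 0 with h | h
  · rw [Q_zero h, W_zero h]
  · have h1 : Q w ≤ ∫ _ in (0 : ℝ)..w, W w :=
      intervalIntegral.integral_mono_on h.le (W_cont.intervalIntegrable _ _)
        (by simp) (fun x hx => W_mono hx.2)
    rw [intervalIntegral.integral_const, sub_zero, smul_eq_mul] at h1
    exact h1.trans (mul_le_of_le_one_left (W_nonneg w) hw)

/-! ## The Laplacian of a radial function -/

lemma hasFDeriv_radial {d : ℕ} (x₀ : E d) (f f' : ℝ → ℝ) (hf : ∀ u, HasDerivAt f (f' u) u)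
    (y : E d) : HasFDerivAt (fun y : E d => f (‖y - x₀‖ ^ 2))
      (f' (‖y - x₀‖ ^ 2) • (2 • (innerSL ℝ (y - x₀)))) y := by
  have h1 : HasFDerivAt (fun y : E d => ‖y - x₀‖ ^ 2) (2 • (innerSL ℝ (y - x₀))) y := by
    have h2 := (hasStrictFDerivAt_norm_sq (y - x₀)).hasFDerivAt
    have h3 : HasFDerivAt (fun y : E d => y - x₀) (ContinuousLinearMap.id ℝ (E d)) y :=
      (hasFDerivAt_id y).sub_const x₀
    have h4 := h2.comp y h3
    rw [ContinuousLinearMap.comp_id] at h4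
    exact h4
  exact (hf _).comp_hasFDerivAt y h1

lemma fderiv_radial {d : ℕ} (x₀ : E d) (f f' : ℝ → ℝ) (hf : ∀ u, HasDerivAt f (f' u) u)
    (y v : E d) : fderiv ℝ (fun y : E d => f (‖y - x₀‖ ^ 2)) y v =
      f' (‖y - x₀‖ ^ 2) * (2 * inner ℝ (y - x₀) v) := by
  rw [(hasFDeriv_radial x₀ f f' hf y).fderiv]
  simp only [_root_.smul_apply, innerSL_apply_apply, smul_eq_mul, nsmul_eq_mul,
    Nat.cast_ofNat]

lemma lap_radial {d : ℕ} (x₀ : E d) (f f' f'' : ℝ → ℝ) (hf : ∀ u, HasDerivAt f (f' u) u)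
    (hf' : ∀ u, HasDerivAt f' (f'' u) u) (y : E d) :
    lap (fun y : E d => f (‖y - x₀‖ ^ 2)) y =
      4 * ‖y - x₀‖ ^ 2 * f'' (‖y - x₀‖ ^ 2) + 2 * d * f' (‖y - x₀‖ ^ 2) := by
  unfold lap
  have h1 : ∀ i : Fin d, fderiv ℝ (fun y => fderiv ℝ (fun y : E d => f (‖y - x₀‖ ^ 2)) y
      (EuclideanSpace.single i 1)) y (EuclideanSpace.single i 1) =
      4 * f'' (‖y - x₀‖ ^ 2) * ((y - x₀) i) ^ 2 + 2 * f' (‖y - x₀‖ ^ 2) := by
    intro i
    have h2 : (fun y => fderiv ℝ (fun y : E d => f (‖y - x₀‖ ^ 2)) y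
        (EuclideanSpace.single i 1)) = fun y => f' (‖y - x₀‖ ^ 2) * (2 * ((y - x₀) i)) := by
      funext z
      rw [fderiv_radial x₀ f f' hf]
      rw [EuclideanSpace.inner_single_right]
      simp
    rw [h2]
    have h3 := hasFDeriv_radial x₀ f' f'' hf' y
    have h4 : HasFDerivAt (fun y : E d => 2 * ((y - x₀) i))
        ((2 : ℝ) • (EuclideanSpace.proj i : E d →L[ℝ] ℝ)) y := by
      have h5 : HasFDerivAt (fun y : E d => (y - x₀) i)
          (EuclideanSpace.proj i : E d →L[ℝ] ℝ) y := by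
        have h6 := ((EuclideanSpace.proj i : E d →L[ℝ] ℝ).hasFDerivAt (x := y - x₀)).comp y
          ((hasFDerivAt_id y).sub_const x₀)
        rw [ContinuousLinearMap.comp_id] at h6
        exact h6
      exact h5.const_smul (2 : ℝ)
    have h7 : HasFDerivAt (fun y : E d => f' (‖y - x₀‖ ^ 2) * (2 * ((y - x₀) i))) _ y :=
      h3.mul h4
    rw [h7.fderiv]
    simp [EuclideanSpace.inner_single_right]
    ring
  rw [Finset.sum_congr rfl (fun i _ => h1 i), Finset.sum_add_distrib, ← Finset.mul_sum,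
    Finset.sum_const, Finset.card_univ, Fintype.card_fin, EuclideanSpace.norm_sq_eq]
  simp only [Real.norm_eq_abs, sq_abs, nsmul_eq_mul]
  ring

/-! ## The kernels -/

/-- derivative of the kernel in the radius, as a function of the square of the distance -/
noncomputable def dk (d : ℕ) (r q : ℝ) : ℝ :=
  -(d / r ^ (d + 1)) * W (1 - q / r ^ 2) + deriv W (1 - q / r ^ 2) * (2 * q / r ^ 3) / r ^ d

lemma dk_deriv (d : ℕ) (q : ℝ) {r : ℝ} (hr : 0 < r) :
    HasDerivAt (fun r : ℝ => W (1 - q / r ^ 2) / r ^ d) (dk d r q) r := by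
  have hr0 : r ≠ 0 := hr.ne'
  have h1 : HasDerivAt (fun r : ℝ => 1 - q / r ^ 2) (2 * q / r ^ 3) r := by
    have h2 : HasDerivAt (fun r : ℝ => q / r ^ 2) _ r :=
      (hasDerivAt_const r q).div (hasDerivAt_pow 2 r) (pow_ne_zero 2 hr0)
    have h3 : HasDerivAt (fun r : ℝ => 1 - q / r ^ 2) _ r := h2.const_sub 1
    refine h3.congr_deriv ?_
    simp only [Nat.cast_ofNat, zero_mul]
    field_simp
    ring
  have h4 : HasDerivAt (fun r : ℝ => W (1 - q / r ^ 2)) (deriv W (1 - q / r ^ 2) * (2 * q / r ^ 3)) r :=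
    (W_diff _).hasDerivAt.comp r h1
  have h5 : HasDerivAt (fun r : ℝ => W (1 - q / r ^ 2) / r ^ d) _ r :=
    h4.div (hasDerivAt_pow d r) (pow_ne_zero d hr0)
  refine h5.congr_deriv ?_
  unfold dk
  rcases d with _ | n
  · simp
  · simp only [Nat.add_sub_cancel]
    field_simp
    ring

lemma dk_bound (d : ℕ) : ∃ C : ℝ, 0 ≤ C ∧ ∀ q ≥ (0 : ℝ), ∀ r > (0 : ℝ), |dk d r q| ≤ C / r ^ (d + 1) := by
  obtain ⟨C, hC0, hC⟩ := dW_bdd
  refine ⟨d + 2 * C, by positivity, ?_⟩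
  intro q hq r hr
  have h1 : |-(d / r ^ (d + 1)) * W (1 - q / r ^ 2)| ≤ d / r ^ (d + 1) := by
    rw [abs_mul, abs_neg, abs_of_nonneg (by positivity : (0 : ℝ) ≤ d / r ^ (d + 1)),
      abs_of_nonneg (W_nonneg _)]
    exact mul_le_of_le_one_right (by positivity) (W_le_one _)
  have h2 : |deriv W (1 - q / r ^ 2) * (2 * q / r ^ 3) / r ^ d| ≤ 2 * C / r ^ (d + 1) := by
    rcases le_or_gt (1 - q / r ^ 2) 0 with h | h
    · rw [dW_zero h]
      simp only [zero_mul, zero_div, abs_zero]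
      positivity
    · have h3 : q / r ^ 2 < 1 := by linarith
      rw [abs_div, abs_mul, abs_of_nonneg (by positivity : (0 : ℝ) ≤ r ^ d),
        abs_of_nonneg (by positivity : (0 : ℝ) ≤ 2 * q / r ^ 3)]
      have h4 : 2 * q / r ^ 3 ≤ 2 / r := by
        have h5 : 2 * q / r ^ 3 = 2 / r * (q / r ^ 2) := by field_simp
        rw [h5]
        exact mul_le_of_le_one_right (by positivity) h3.le
      have h6 : |deriv W (1 - q / r ^ 2)| ≤ C := hC _ (by
        have : 0 ≤ q / r ^ 2 := by positivity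
        linarith)
      have h7 : |deriv W (1 - q / r ^ 2)| * (2 * q / r ^ 3) ≤ C * (2 / r) :=
        mul_le_mul h6 h4 (by positivity) hC0
      calc |deriv W (1 - q / r ^ 2)| * (2 * q / r ^ 3) / r ^ d ≤ C * (2 / r) / r ^ d := by gcongr
        _ = 2 * C / r ^ (d + 1) := by
          field_simp
          ring
  calc |dk d r q| ≤ d / r ^ (d + 1) + 2 * C / r ^ (d + 1) := (abs_add_le _ _).trans (add_le_add h1 h2)
    _ = (d + 2 * C) / r ^ (d + 1) := by ring

lemma dk_cont (d : ℕ) (r : ℝ) : Continuous (dk d r) := by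
  unfold dk
  have h1 : Continuous (fun q : ℝ => 1 - q / r ^ 2) := by fun_prop
  have h2 := W_cont.comp h1
  have h3 := dW_cont.comp h1
  exact (continuous_const.mul h2).add ((h3.mul (by fun_prop)).div_const _)

/-- the test function -/
noncomputable def et {d : ℕ} (x₀ : E d) (r : ℝ) (y : E d) : ℝ :=
  r / (2 * r ^ d) * Q (1 - ‖y - x₀‖ ^ 2 / r ^ 2)

lemma et_nonneg {d : ℕ} (x₀ : E d) {r : ℝ} (hr : 0 < r) (y : E d) : 0 ≤ et x₀ r y :=
  mul_nonneg (by positivity) (Q_nonneg _)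

lemma et_tf {d : ℕ} (x₀ : E d) {r : ℝ} (hr : 0 < r) : TF (et x₀ r) := by
  constructor
  · have h1 : ContDiff ℝ ∞ (fun y : E d => 1 - ‖y - x₀‖ ^ 2 / r ^ 2) := by
      apply contDiff_const.sub
      apply ContDiff.div_const
      exact (contDiff_id.sub contDiff_const).norm_sq ℝ
    exact contDiff_const.mul (Q_smooth.comp h1)
  · apply HasCompactSupport.intro (isCompact_closedBall x₀ r)
    intro y hy
    rw [Metric.mem_closedBall, dist_eq_norm, not_le] at hy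
    unfold et
    rw [Q_zero, mul_zero]
    have h1 : 1 ≤ ‖y - x₀‖ ^ 2 / r ^ 2 := by
      rw [one_le_div (by positivity)]
      gcongr
    linarith

lemma et_lap {d : ℕ} (x₀ : E d) {r : ℝ} (hr : 0 < r) (y : E d) :
    lap (et x₀ r) y = dk d r (‖y - x₀‖ ^ 2) := by
  have hr0 : r ≠ 0 := hr.ne'
  have h1 : ∀ u : ℝ, HasDerivAt (fun u : ℝ => 1 - u / r ^ 2) (-(1 / r ^ 2)) u := by
    intro u
    have h2 : HasDerivAt (fun u : ℝ => 1 - u / r ^ 2) _ u :=
      ((hasDerivAt_id u).div_const (r ^ 2)).const_sub 1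
    exact h2
  have h2 : ∀ u : ℝ, HasDerivAt (fun u : ℝ => r / (2 * r ^ d) * Q (1 - u / r ^ 2))
      (r / (2 * r ^ d) * (W (1 - u / r ^ 2) * (-(1 / r ^ 2)))) u := by
    intro u
    exact ((Q_deriv _).comp u (h1 u)).const_mul _
  have h3 : ∀ u : ℝ, HasDerivAt (fun u : ℝ => r / (2 * r ^ d) * (W (1 - u / r ^ 2) * (-(1 / r ^ 2))))
      (r / (2 * r ^ d) * (deriv W (1 - u / r ^ 2) * (-(1 / r ^ 2)) * (-(1 / r ^ 2)))) u := by
    intro u
    exact (((W_diff _).hasDerivAt.comp u (h1 u)).mul_const _).const_mul _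
  have h4 := lap_radial x₀ _ _ _ h2 h3 y
  have h5 : (fun y : E d => (fun u : ℝ => r / (2 * r ^ d) * Q (1 - u / r ^ 2)) (‖y - x₀‖ ^ 2)) =
      et x₀ r := rfl
  rw [h5] at h4
  rw [h4]
  unfold dk
  field_simp
  ring

lemma int_mul {d : ℕ} {ρ k : E d → ℝ} (hρ : Integrable ρ) (hk : Continuous k) (C : ℝ)
    (hC : ∀ y, |k y| ≤ C) : Integrable (fun y => ρ y * k y) := by
  apply (hρ.norm.mul_const C).mono' (hρ.aestronglyMeasurable.mul hk.aestronglyMeasurable)
  apply Filter.Eventually.of_forall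
  intro y
  rw [Pi.mul_apply, norm_mul]
  exact mul_le_mul_of_nonneg_left (hC y) (norm_nonneg _)

/-- the weighted averages -/
noncomputable def Fr {d : ℕ} (ρ : E d → ℝ) (x₀ : E d) (r : ℝ) : ℝ :=
  ∫ y, ρ y * (W (1 - ‖y - x₀‖ ^ 2 / r ^ 2) / r ^ d)

lemma gk_cont {d : ℕ} (x₀ : E d) (r : ℝ) :
    Continuous (fun y : E d => W (1 - ‖y - x₀‖ ^ 2 / r ^ 2) / r ^ d) := by
  have h1 : Continuous (fun y : E d => 1 - ‖y - x₀‖ ^ 2 / r ^ 2) := by fun_prop
  exact (W_cont.comp h1).div_const _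

lemma gk_int {d : ℕ} {ρ : E d → ℝ} (hρ : Integrable ρ) (x₀ : E d) {r : ℝ} (hr : 0 < r) :
    Integrable (fun y => ρ y * (W (1 - ‖y - x₀‖ ^ 2 / r ^ 2) / r ^ d)) := by
  apply int_mul hρ (gk_cont x₀ r) (1 / r ^ d)
  intro y
  rw [abs_of_nonneg (div_nonneg (W_nonneg _) (by positivity))]
  gcongr
  exact W_le_one _

lemma Fr_deriv {d : ℕ} {ρ : E d → ℝ} (hρ : Integrable ρ) (x₀ : E d) {r : ℝ} (hr : 0 < r) :
    Integrable (fun y => ρ y * dk d r (‖y - x₀‖ ^ 2)) ∧
    HasDerivAt (Fr ρ x₀) (∫ y, ρ y * dk d r (‖y - x₀‖ ^ 2)) r := by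
  obtain ⟨C, hC0, hC⟩ := dk_bound d
  have hs : Set.Ioi (r / 2) ∈ 𝓝 r := Ioi_mem_nhds (by linarith)
  refine hasDerivAt_integral_of_dominated_loc_of_deriv_le (μ := volume)
    (F := fun (s : ℝ) (y : E d) => ρ y * (W (1 - ‖y - x₀‖ ^ 2 / s ^ 2) / s ^ d))
    (F' := fun (s : ℝ) (y : E d) => ρ y * dk d s (‖y - x₀‖ ^ 2))
    (bound := fun y => |ρ y| * (C / (r / 2) ^ (d + 1))) hs ?_ ?_ ?_ ?_ ?_ ?_
  · apply Filter.Eventually.of_forall
    intro s
    exact hρ.aestronglyMeasurable.mul (gk_cont x₀ s).aestronglyMeasurable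
  · exact gk_int hρ x₀ hr
  · refine hρ.aestronglyMeasurable.mul ?_
    have : Continuous (fun y : E d => dk d r (‖y - x₀‖ ^ 2)) := (dk_cont d r).comp (by fun_prop)
    exact this.aestronglyMeasurable
  · apply Filter.Eventually.of_forall
    intro y s hs'
    have hs0 : 0 < s := lt_trans (by positivity) (Set.mem_Ioi.mp hs')
    rw [norm_mul]
    apply mul_le_mul_of_nonneg_left _ (norm_nonneg _)
    refine (hC _ (by positivity) s hs0).trans ?_
    have : r / 2 ≤ s := (Set.mem_Ioi.mp hs').le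
    gcongr
  · exact hρ.norm.mul_const _
  · apply Filter.Eventually.of_forall
    intro y s hs'
    have hs0 : 0 < s := lt_trans (by positivity) (Set.mem_Ioi.mp hs')
    exact (dk_deriv d _ hs0).const_mul _

/-- the hypothesis on `ρ` -/
def Sub {d : ℕ} (ρ : E d → ℝ) (b : ℝ) : Prop :=
  ∀ η : E d → ℝ, TF η → (∀ x, 0 ≤ η x) → 0 ≤ ∫ x, ρ x * (lap η x + b * η x)

lemma Fr_nonneg {d : ℕ} {ρ : E d → ℝ} (h0 : ∀ x, 0 ≤ ρ x) (x₀ : E d) {r : ℝ} (hr : 0 < r) :
    0 ≤ Fr ρ x₀ r :=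
  integral_nonneg (fun y => mul_nonneg (h0 y) (div_nonneg (W_nonneg _) (by positivity)))

lemma Fr_deriv_ge {d : ℕ} {ρ : E d → ℝ} {b : ℝ} (hb : 0 ≤ b) (hρ : Integrable ρ)
    (h0 : ∀ x, 0 ≤ ρ x) (hS : Sub ρ b) (x₀ : E d) {r : ℝ} (hr : 0 < r) (hr1 : r ≤ 1) :
    -(b / 2) * Fr ρ x₀ r ≤ ∫ y, ρ y * dk d r (‖y - x₀‖ ^ 2) := by
  have h1 := hS (et x₀ r) (et_tf x₀ hr) (et_nonneg x₀ hr)
  have h2 := (Fr_deriv hρ x₀ hr).1
  have het : ∀ y : E d, et x₀ r y ≤ 1 / 2 * (W (1 - ‖y - x₀‖ ^ 2 / r ^ 2) / r ^ d) := by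
    intro y
    unfold et
    have h3 : Q (1 - ‖y - x₀‖ ^ 2 / r ^ 2) ≤ W (1 - ‖y - x₀‖ ^ 2 / r ^ 2) := Q_le (by
      have : 0 ≤ ‖y - x₀‖ ^ 2 / r ^ 2 := by positivity
      linarith)
    have h4 : r / (2 * r ^ d) ≤ 1 / (2 * r ^ d) := by gcongr
    calc r / (2 * r ^ d) * Q (1 - ‖y - x₀‖ ^ 2 / r ^ 2)
        ≤ 1 / (2 * r ^ d) * W (1 - ‖y - x₀‖ ^ 2 / r ^ 2) :=
          mul_le_mul h4 h3 (Q_nonneg _) (by positivity)
      _ = 1 / 2 * (W (1 - ‖y - x₀‖ ^ 2 / r ^ 2) / r ^ d) := by field_simp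
  have h3 : Integrable (fun y => ρ y * et x₀ r y) := by
    apply int_mul hρ (et_tf x₀ hr).1.continuous (1 / 2 * (1 / r ^ d))
    intro y
    rw [abs_of_nonneg (et_nonneg x₀ hr y)]
    refine (het y).trans ?_
    gcongr
    exact W_le_one _
  have h4 : ∫ x, ρ x * (lap (et x₀ r) x + b * et x₀ r x) =
      (∫ y, ρ y * dk d r (‖y - x₀‖ ^ 2)) + b * ∫ y, ρ y * et x₀ r y := by
    rw [← integral_const_mul, ← integral_add h2 (h3.const_mul b)]
    congr 1
    funext y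
    rw [et_lap x₀ hr]
    ring
  have h5 : ∫ y, ρ y * et x₀ r y ≤ 1 / 2 * Fr ρ x₀ r := by
    unfold Fr
    rw [← integral_const_mul]
    apply integral_mono h3 ((gk_int hρ x₀ hr).const_mul _)
    intro y
    have := mul_le_mul_of_nonneg_left (het y) (h0 y)
    simp only
    linarith
  rw [h4] at h1
  have h6 := mul_le_mul_of_nonneg_left h5 hb
  linarith

lemma Fr_le {d : ℕ} {ρ : E d → ℝ} {b : ℝ} (hb : 0 ≤ b) (hρ : Integrable ρ)
    (h0 : ∀ x, 0 ≤ ρ x) (hS : Sub ρ b) (x₀ : E d) {r : ℝ} (hr : 0 < r) (hr1 : r ≤ 1) :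
    Fr ρ x₀ r ≤ Real.exp (b / 2) * Fr ρ x₀ 1 := by
  have h1 : ∀ s : ℝ, 0 < s → HasDerivAt (fun s => Real.exp (b / 2 * s) * Fr ρ x₀ s)
      (Real.exp (b / 2 * s) * (b / 2) * Fr ρ x₀ s +
        Real.exp (b / 2 * s) * ∫ y, ρ y * dk d s (‖y - x₀‖ ^ 2)) s := by
    intro s hs
    have h2 : HasDerivAt (fun s : ℝ => Real.exp (b / 2 * s)) (Real.exp (b / 2 * s) * (b / 2)) s := by
      have := ((hasDerivAt_id s).const_mul (b / 2)).exp
      simpa using this
    exact h2.mul (Fr_deriv hρ x₀ hs).2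
  have h2 : MonotoneOn (fun s => Real.exp (b / 2 * s) * Fr ρ x₀ s) (Set.Icc r 1) := by
    apply monotoneOn_of_deriv_nonneg (convex_Icc r 1)
    · intro s hs
      exact (h1 s (lt_of_lt_of_le hr hs.1)).continuousAt.continuousWithinAt
    · intro s hs
      rw [interior_Icc] at hs
      exact (h1 s (hr.trans hs.1)).differentiableAt.differentiableWithinAt
    · intro s hs
      rw [interior_Icc] at hs
      rw [(h1 s (hr.trans hs.1)).deriv]
      have h3 := Fr_deriv_ge hb hρ h0 hS x₀ (hr.trans hs.1) hs.2.le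
      have h4 := mul_le_mul_of_nonneg_left h3 (Real.exp_pos (b / 2 * s)).le
      nlinarith
  have h3 := h2 (Set.left_mem_Icc.mpr hr1) (Set.right_mem_Icc.mpr hr1) hr1
  simp only [mul_one] at h3
  refine le_trans ?_ h3
  apply le_mul_of_one_le_left (Fr_nonneg h0 x₀ hr)
  exact Real.one_le_exp (by positivity)

/-- the constant in the lower bound -/
noncomputable def cd (d : ℕ) : ℝ :=
  W (3 / 4) * (1 / 2 ^ d) * (volume (Metric.ball (0 : E d) 1)).toReal

lemma cd_pos (d : ℕ) : 0 < cd d := by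
  unfold cd
  have h1 : 0 < (volume (Metric.ball (0 : E d) 1)).toReal :=
    ENNReal.toReal_pos (Metric.measure_ball_pos volume _ one_pos).ne' measure_ball_lt_top.ne
  have h2 := W_pos (by norm_num : (0 : ℝ) < 3 / 4)
  positivity

lemma Fr_ge {d : ℕ} {ρ : E d → ℝ} (hρ : Integrable ρ) (h0 : ∀ x, 0 ≤ ρ x) (x₀ : E d) {s : ℝ}
    (hs : 0 < s) : cd d * (⨍ y in Metric.closedBall x₀ s, ρ y) ≤ Fr ρ x₀ (2 * s) := by
  have hr : (0 : ℝ) < 2 * s := by positivity
  have h1 : ∫ y in Metric.closedBall x₀ s, ρ y * (W (3 / 4) / (2 * s) ^ d) ≤ Fr ρ x₀ (2 * s) := by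
    calc ∫ y in Metric.closedBall x₀ s, ρ y * (W (3 / 4) / (2 * s) ^ d)
        ≤ ∫ y in Metric.closedBall x₀ s, ρ y * (W (1 - ‖y - x₀‖ ^ 2 / (2 * s) ^ 2) / (2 * s) ^ d) := by
          apply setIntegral_mono_on (hρ.mul_const _).integrableOn (gk_int hρ x₀ hr).integrableOn
            measurableSet_closedBall
          intro y hy
          rw [Metric.mem_closedBall, dist_eq_norm] at hy
          apply mul_le_mul_of_nonneg_left _ (h0 y)
          gcongr
          apply W_mono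
          have h2 : ‖y - x₀‖ ^ 2 / (2 * s) ^ 2 ≤ 1 / 4 := by
            rw [div_le_iff₀ (by positivity)]
            have : ‖y - x₀‖ ^ 2 ≤ s ^ 2 := by gcongr
            nlinarith
          linarith
      _ ≤ Fr ρ x₀ (2 * s) := by
          apply setIntegral_le_integral (gk_int hρ x₀ hr)
          apply Filter.Eventually.of_forall
          intro y
          exact mul_nonneg (h0 y) (div_nonneg (W_nonneg _) (by positivity))
  refine le_trans (le_of_eq ?_) h1
  rw [integral_mul_const, setAverage_eq, smul_eq_mul]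
  have h3 : volume.real (Metric.closedBall x₀ s) = s ^ d * (volume (Metric.ball (0 : E d) 1)).toReal := by
    rw [Measure.real, Measure.addHaar_closedBall volume x₀ hs.le, ENNReal.toReal_mul,
      ENNReal.toReal_ofReal (by positivity), finrank_euclideanSpace, Fintype.card_fin]
  rw [h3]
  have h4 : 0 < (volume (Metric.ball (0 : E d) 1)).toReal :=
    ENNReal.toReal_pos (Metric.measure_ball_pos volume _ one_pos).ne' measure_ball_lt_top.ne
  unfold cd
  rw [mul_pow]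
  field_simp

lemma ae_bound {d : ℕ} {ρ : E d → ℝ} {b : ℝ} (hb : 0 ≤ b) (hρ : Integrable ρ)
    (h0 : ∀ x, 0 ≤ ρ x) (hS : Sub ρ b) :
    ∀ᵐ x₀ : E d, cd d * ρ x₀ ≤ Real.exp (b / 2) * Fr ρ x₀ 1 := by
  filter_upwards [IsUnifLocDoublingMeasure.ae_tendsto_average (μ := (volume : Measure (E d)))
    hρ.locallyIntegrable 1] with x₀ hx
  have h1 := hx (l := 𝓝[>] (0 : ℝ)) (fun _ => x₀) (fun s => s) tendsto_id (by
    filter_upwards [self_mem_nhdsWithin] with s hs
    rw [one_mul]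
    exact Metric.mem_closedBall_self (le_of_lt hs))
  apply le_of_tendsto (h1.const_mul (cd d))
  have h2 : Set.Ioo (0 : ℝ) (1 / 2) ∈ 𝓝[>] (0 : ℝ) := Ioo_mem_nhdsGT (by norm_num)
  filter_upwards [h2] with s hs
  exact (Fr_ge hρ h0 x₀ hs.1).trans
    (Fr_le hb hρ h0 hS x₀ (by linarith [hs.1]) (by linarith [hs.2]))

lemma Fr_one_le {d : ℕ} {ρ : E d → ℝ} (hρ : Integrable ρ) (h0 : ∀ x, 0 ≤ ρ x) (x₀ : E d) (n : ℝ)
    (hn : n + 1 < ‖x₀‖) : Fr ρ x₀ 1 ≤ ∫ y in {y : E d | n < ‖y‖}, ρ y := by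
  have hm : MeasurableSet {y : E d | n < ‖y‖} := measurableSet_lt measurable_const measurable_norm
  rw [← integral_indicator hm]
  unfold Fr
  apply integral_mono (gk_int hρ x₀ one_pos) (hρ.indicator hm)
  intro y
  simp only [one_pow, div_one]
  by_cases hy : n < ‖y‖
  · rw [Set.indicator_of_mem (show y ∈ {y : E d | n < ‖y‖} from hy)]
    exact mul_le_of_le_one_right (h0 y) (W_le_one _)
  · rw [Set.indicator_of_notMem (show y ∉ {y : E d | n < ‖y‖} from hy)]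
    rw [W_zero, mul_zero]
    have h1 : 1 ≤ ‖y - x₀‖ := by
      have := norm_sub_norm_le x₀ y
      rw [norm_sub_rev] at this
      linarith
    nlinarith

theorem inf : S_INF := by
  intro d ρ b _ hb hρ h0 hS δ hδ
  have h1 : Tendsto (fun n : ℕ => ∫ y in {y : E d | (n : ℝ) < ‖y‖}, ρ y) atTop (𝓝 0) := by
    have h2 := tendsto_setIntegral_of_antitone (μ := (volume : Measure (E d))) (f := ρ)
      (s := fun n : ℕ => {y : E d | (n : ℝ) < ‖y‖})
      (fun n => measurableSet_lt measurable_const measurable_norm)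
      (fun m n hmn y hy => lt_of_le_of_lt (Nat.cast_le.mpr hmn : (m : ℝ) ≤ n) (show (n : ℝ) < ‖y‖ from hy))
      ⟨0, hρ.integrableOn⟩
    have h3 : ⋂ n : ℕ, {y : E d | (n : ℝ) < ‖y‖} = ∅ := by
      ext y
      simp only [Set.mem_iInter, Set.mem_ofPred_eq, Set.mem_empty_iff_false, iff_false, not_forall,
        not_lt]
      exact exists_nat_ge ‖y‖
    rw [h3] at h2
    simpa using h2
  have hpos : 0 < cd d * δ / Real.exp (b / 2) := by
    have := cd_pos d
    positivity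
  obtain ⟨n, hn⟩ := (h1.eventually (gt_mem_nhds hpos)).exists
  refine ⟨n + 1, ?_⟩
  filter_upwards [ae_bound hb hρ h0 hS] with x₀ hx hR
  have h2 := Fr_one_le hρ h0 x₀ n hR
  have h3 : Real.exp (b / 2) * Fr ρ x₀ 1 ≤ cd d * δ := by
    have h4 : Fr ρ x₀ 1 ≤ cd d * δ / Real.exp (b / 2) := h2.trans hn.le
    rw [le_div_iff₀ (Real.exp_pos _)] at h4
    linarith
  exact le_of_mul_le_mul_left (hx.trans h3) (cd_pos d)

end Pool.Agent.Y486.OP
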